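import Pool.Agent.helper46.T1.SpecP

/-!
# Project T1 (MP_07c750), block P, row PKS: symmetric cutoffs
-/

set_option autoImplicit false

open scoped MatrixGroups ContDiff Topology UpperHalfPlane ComplexConjugate
open UpperHalfPlane MeasureTheory Filter Set

namespace Pool.Agent.TP

open Pool.Agent.RS Pool.Agent.MS

theorem PKS_cont : Continuous fun g : SL(2, ℝ) => -g :=
  Continuous.subtype_mk (continuous_neg.comp continuous_subtype_val) _

theorem PKS_neg {Γ : Subgroup SL(2, ℝ)} {Ψ Ψa Ψn Ψl : SL(2, ℝ) → ℝ} (h : SF Γ Ψ Ψa Ψn Ψl) :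
    SF Γ (fun g => Ψ (-g)) (fun g => Ψa (-g)) (fun g => Ψn (-g)) (fun g => Ψl (-g)) := by
  have hi : ∀ u : SL(2, ℝ) → ℝ, InvG Γ u → InvG Γ (fun g => u (-g)) := fun u hu =>
    ⟨hu.1.comp PKS_cont, fun γ g => by
      show u (-((γ : SL(2, ℝ)) * g)) = u (-g)
      rw [← mul_neg]
      exact hu.2 γ (-g)⟩
  refine ⟨hi _ h.i0, hi _ h.ia, hi _ h.i1, hi _ h.il, fun g => ?_, fun g => ?_, fun g => ?_⟩
  · have := h.da (-g)
    simp only [neg_mul] at this
    exact this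
  · have := h.dn (-g)
    simp only [neg_mul] at this
    exact this
  · have := h.dl (-g)
    simp only [neg_mul] at this
    exact this

theorem PKS_fw {Γ : Subgroup SL(2, ℝ)} {A : Finset SL(2, ℝ)} {b v : ℝ} {g : SL(2, ℝ)} (h : -g ∈ HV.FW Γ A b v) :
    ∃ y ∈ A, ∃ γ : Γ, bq b b (b * v) ((-y)⁻¹ * (γ : SL(2, ℝ)) * g) := by
  obtain ⟨y, hy, γ, h⟩ := h
  refine ⟨y, hy, γ, ?_⟩
  have h1 : (-y)⁻¹ * (γ : SL(2, ℝ)) * g = y⁻¹ * (γ : SL(2, ℝ)) * -g := by
    have h2 : (-y)⁻¹ = -y⁻¹ := by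
      apply inv_eq_of_mul_eq_one_left
      simp
    rw [h2]
    simp
  rw [h1]
  exact h

theorem PKS_proof (hPSF : PSF_stmt) (hBXM : MS.BXM_stmt) : PKS_stmt := by
  classical
  intro Γ hΓ
  obtain ⟨a0, ha0, ha1, hB⟩ := hBXM Γ hΓ
  refine ⟨a0, ha0, ha1, fun a ha ha' => ?_⟩
  obtain ⟨C, hC, hB⟩ := hB a ha ha'
  refine ⟨max 1 (2 * C), le_max_left _ _, fun n A hn0 => ?_⟩
  obtain ⟨Ψ, Ψa, Ψn, Ψl, hS, hr, hn, hl, h1, hs⟩ := hB n A hn0
  have hS' := PKS_neg hS
  have hc := (hPSF Γ _ _ _ _ hS).2.2.1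
  have hc' := (hPSF Γ _ _ _ _ hS').2.2.1
  have hp := (hPSF Γ _ _ _ _ hc).2.1 _ _ _ _ hc'
  have hq := (hPSF Γ _ _ _ _ hp).2.2.1
  refine ⟨A ∪ A.image fun y => -y, _, _, _, _, ?_, ⟨hq, fun g => ?_, fun g => ?_, fun g => ?_, fun g => ?_, fun g hg => ?_⟩, fun g hg => ?_⟩
  · refine (Finset.card_union_le _ _).trans ?_
    have := Finset.card_image_le (s := A) (f := fun y => -y)
    omega
  · have h2 := hr g
    have h3 := hr (-g)
    constructor
    · nlinarith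
    · nlinarith
  · simp only [neg_neg]
    ring
  · have h2 := hr g
    have h3 := hr (-g)
    have h4 := abs_le.1 (hn g)
    have h5 := abs_le.1 (hn (-g))
    refine le_trans ?_ (le_max_right _ _)
    rw [abs_le]
    constructor
    · nlinarith
    · nlinarith
  · have h2 := hr g
    have h3 := hr (-g)
    have h4 := abs_le.1 (hl g)
    have h5 := abs_le.1 (hl (-g))
    refine le_trans ?_ (mul_le_mul_of_nonneg_right (le_max_right _ _) (Real.exp_pos _).le)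
    rw [abs_le]
    constructor
    · nlinarith
    · nlinarith
  · by_cases h2 : Ψ g = 0
    · have h3 : Ψ (-g) ≠ 0 := by
        intro h3
        apply hg
        simp only [h2, h3]
        ring
      obtain ⟨y, hy, γ, h⟩ := PKS_fw (g := g) (hs (-g) h3)
      exact ⟨-y, Finset.mem_union_right _ (Finset.mem_image_of_mem _ hy), γ, h⟩
    · obtain ⟨y, hy, γ, h⟩ := hs g h2
      exact ⟨y, Finset.mem_union_left _ hy, γ, h⟩
  · have h2 : Ψ g = 1 := h1 g hg
    simp only [h2]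
    ring

end Pool.Agent.TP
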